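import Mathlib

/-!
# Eigenvector approximants of generalized Rogers-Ramanujan fractions at roots of unity

Let `x` be a primitive `m`-th root of unity, `5 ∣ m`, and `a` a power of `x`, `a = x ^ (-s₀)`. The
vector `V_r = (P_r, Q_r)` of the numerator and the denominator of the `r`-th approximant satisfies
`V_n = V_{n-1} + x ^ (n - s₀) V_{n-2}` and `V_{r+m} = A V_r`. After a shift of the index by `s₀` one
has to show that for the recursion `u (n + 2) = u (n + 1) + x ^ n u n` the monodromy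
`(u 1, u 0) ↦ (u (m + 1), u m)` is diagonal with entries `1 + y + y⁻¹` and `-(y + y⁻¹)`,
`y = x ^ (m / 5)`. This follows from the finite forms of the Rogers-Ramanujan identities,
`∑ (-1)^j x^(j (5 j + 1) / 2 - 2 t j) [n, ⌊(n - 5 j) / 2⌋ + t]`, `t = 0, 1`, evaluated at `n = m` and
`n = m + 1`, where nearly all Gaussian binomial coefficients vanish.
-/

set_option autoImplicit false

namespace Pool.Agent.Results.MP_b3b2bb_nt.Eigenvectors

open Finset

/-- Gaussian binomial coefficients `[n, i]` at `x`, extended by zero. -/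
noncomputable def G (x : ℂ) : ℕ → ℤ → ℂ
  | 0, i => if i = 0 then 1 else 0
  | (n + 1), i => G x n (i - 1) + x ^ i * G x n i

lemma G_succ (x : ℂ) (n : ℕ) (i : ℤ) : G x (n + 1) i = G x n (i - 1) + x ^ i * G x n i := rfl

lemma G_neg (x : ℂ) : ∀ (n : ℕ) (i : ℤ), i < 0 → G x n i = 0 := by
  intro n
  induction n with
  | zero => intro i hi; simp only [G]; rw [if_neg (by omega)]
  | succ n ih => intro i hi; rw [G_succ, ih _ (by omega), ih _ hi]; simp

lemma G_big (x : ℂ) : ∀ (n : ℕ) (i : ℤ), (n : ℤ) < i → G x n i = 0 := by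
  intro n
  induction n with
  | zero => intro i hi; simp only [G]; rw [if_neg (by push_cast at hi; omega)]
  | succ n ih =>
    intro i hi
    push_cast at hi
    rw [G_succ, ih _ (by omega), ih _ (by omega)]; simp

lemma G_zero (x : ℂ) (n : ℕ) : G x n 0 = 1 := by
  induction n with
  | zero => simp [G]
  | succ n ih => rw [G_succ, G_neg x n _ (by omega), ih]; simp

lemma G_self (x : ℂ) (n : ℕ) : G x n n = 1 := by
  induction n with
  | zero => simp [G]
  | succ n ih =>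
    have : (((n + 1 : ℕ) : ℤ) - 1) = n := by push_cast; ring
    rw [G_succ, this, ih, G_big x n ((n + 1 : ℕ) : ℤ) (by push_cast; omega)]; simp

lemma G_two {x : ℂ} (hx : x ≠ 0) : ∀ (n : ℕ) (i : ℤ),
    G x (n + 1) i = G x n i + x ^ ((n : ℤ) + 1 - i) * G x n (i - 1) := by
  intro n
  induction n with
  | zero =>
    intro i
    rw [G_succ]
    simp only [G]
    by_cases h0 : i = 0
    · subst h0; simp
    · by_cases h1 : i = 1
      · subst h1; simp
      · rw [if_neg (by omega), if_neg h0]; simp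
  | succ n ih =>
    intro i
    have hA := G_succ x (n + 1) i
    have hB := G_succ x n i
    have hC := G_succ x n (i - 1)
    have h1 := ih (i - 1)
    have h2 := ih i
    have e1 : x ^ ((n : ℤ) + 1 - (i - 1)) = x ^ (((n + 1 : ℕ) : ℤ) + 1 - i) := by
      congr 1; push_cast; ring
    have e2 : x ^ i * x ^ ((n : ℤ) + 1 - i) = x ^ ((n : ℤ) + 1) := by
      rw [← zpow_add₀ hx]; congr 1; ring
    have e3 : x ^ (((n + 1 : ℕ) : ℤ) + 1 - i) * x ^ (i - 1) = x ^ ((n : ℤ) + 1) := by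
      rw [← zpow_add₀ hx]; congr 1; push_cast; ring
    linear_combination hA + h1 + x ^ i * h2 - hB - x ^ (((n + 1 : ℕ) : ℤ) + 1 - i) * hC +
      G x n (i - 1 - 1) * e1 + G x n (i - 1) * e2 - G x n (i - 1) * e3

/-- the exponents `j (5 j + 1) / 2 - 2 t j` -/
def ex (t j : ℤ) : ℤ := 5 * (j * (j - 1) / 2) + 3 * j - 2 * t * j

lemma ex_two (t j : ℤ) : 2 * ex t j = 5 * (j * (j - 1)) + 6 * j - 4 * t * j := by
  have h : Even (j * (j - 1)) := by
    rcases Int.even_or_odd j with h | h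
    · exact h.mul_right _
    · exact (h.sub_odd odd_one).mul_left _
  have h2 := Int.ediv_mul_cancel h.two_dvd
  unfold ex
  linear_combination 5 * h2

lemma ex_succ (t j : ℤ) : ex t (j + 1) = ex t j + 5 * j + 3 - 2 * t := by
  have h1 := ex_two t j
  have h2 := ex_two t (j + 1)
  have : 2 * ex t (j + 1) = 2 * (ex t j + 5 * j + 3 - 2 * t) := by
    rw [h2]; linear_combination -h1
  omega

/-- the terms of the finite theta sums -/
noncomputable def tau (x : ℂ) (t : ℤ) (n : ℕ) (j : ℤ) : ℂ :=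
  (-1) ^ j * x ^ ex t j * G x n (((n : ℤ) - 5 * j) / 2 + t)

/-- the telescoping terms -/
noncomputable def psi (x : ℂ) (t : ℤ) (p : ℕ) (j : ℤ) : ℂ :=
  if Even ((p : ℤ) - j) then
    (-1) ^ j * x ^ (ex t j + (((p : ℤ) + 2 - 5 * j) / 2 + t)) *
      G x p (((p : ℤ) + 2 - 5 * j) / 2 + t)
  else 0

lemma tau_rec {x : ℂ} (hx : x ≠ 0) (t : ℤ) (p : ℕ) (j : ℤ) :
    tau x t (p + 2) j = tau x t (p + 1) j + x ^ (p + 1) * tau x t p j +
      (psi x t p j - psi x t p (j + 1)) := by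
  have hpow : x ^ (p + 1) = x ^ ((p : ℤ) + 1) := by
    rw [← zpow_natCast]; push_cast; rfl
  rcases Int.even_or_odd ((p : ℤ) - j) with h | h
  · obtain ⟨c, hc⟩ := h
    have hnot : ¬ Even ((p : ℤ) - (j + 1)) := by
      rw [Int.not_even_iff_odd]
      exact ⟨c - 1, by omega⟩
    obtain ⟨i, hi⟩ : ∃ i : ℤ, i = c + c + 1 - 2 * j - c + t := ⟨_, rfl⟩
    have e1 : ((((p + 2 : ℕ) : ℤ) - 5 * j) / 2 + t) = i := by push_cast; omega
    have e2 : ((((p + 1 : ℕ) : ℤ) - 5 * j) / 2 + t) = i - 1 := by push_cast; omega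
    have e3 : (((p : ℤ) - 5 * j) / 2 + t) = i - 1 := by omega
    have e4 : (((p : ℤ) + 2 - 5 * j) / 2 + t) = i := by omega
    unfold tau psi
    rw [if_pos ⟨c, hc⟩, if_neg hnot, e1, e2, e3, e4, G_succ x (p + 1) i, G_two hx p i, hpow]
    have f1 : x ^ i * x ^ ((p : ℤ) + 1 - i) = x ^ ((p : ℤ) + 1) := by
      rw [← zpow_add₀ hx]; congr 1; ring
    have f0 : x ^ (ex t j + i) = x ^ ex t j * x ^ i := zpow_add₀ hx _ _
    rw [f0]
    linear_combination ((-1) ^ j * x ^ ex t j * G x p (i - 1)) * f1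
  · have h' := h
    obtain ⟨c, hc⟩ := h
    have hyes : Even ((p : ℤ) - (j + 1)) := ⟨c, by omega⟩
    obtain ⟨i, hi⟩ : ∃ i : ℤ, i = c + 1 - 2 * j + t := ⟨_, rfl⟩
    have e1 : ((((p + 2 : ℕ) : ℤ) - 5 * j) / 2 + t) = i := by push_cast; omega
    have e2 : ((((p + 1 : ℕ) : ℤ) - 5 * j) / 2 + t) = i := by push_cast; omega
    have e3 : (((p : ℤ) - 5 * j) / 2 + t) = i - 1 := by omega
    have e4 : (((p : ℤ) + 2 - 5 * (j + 1)) / 2 + t) = i - 2 := by omega
    have hnot : ¬ Even ((p : ℤ) - j) := by rw [Int.not_even_iff_odd]; exact h'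
    unfold tau psi
    rw [if_neg hnot, if_pos hyes, e1, e2, e3, e4, G_two hx (p + 1) i, G_succ x p (i - 1), hpow,
      ex_succ]
    have e5 : i - 1 - 1 = i - 2 := by ring
    rw [e5]
    have f1 : x ^ (((p + 1 : ℕ) : ℤ) + 1 - i) * x ^ (i - 1) = x ^ ((p : ℤ) + 1) := by
      rw [← zpow_add₀ hx]; congr 1; push_cast; ring
    have f2 : x ^ ex t j * x ^ (((p + 1 : ℕ) : ℤ) + 1 - i) =
        x ^ (ex t j + 5 * j + 3 - 2 * t + (i - 2)) := by
      rw [← zpow_add₀ hx]; congr 1; push_cast; omega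
    have f3 : (-1 : ℂ) ^ (j + 1) = -(-1) ^ j := by
      rw [zpow_add₀ (by norm_num)]; simp
    rw [f3]
    linear_combination ((-1) ^ j * x ^ ex t j * G x p (i - 1)) * f1 +
      (-1) ^ j * G x p (i - 2) * f2

/-- the finite theta sums -/
noncomputable def S (x : ℂ) (N : ℕ) (t : ℤ) (n : ℕ) : ℂ :=
  ∑ k ∈ range (2 * N + 1), tau x t n ((k : ℤ) - N)

lemma S_rec {x : ℂ} (hx : x ≠ 0) (N : ℕ) (t : ℤ) (ht : 0 ≤ t) (ht1 : t ≤ 1) (p : ℕ)
    (hp : p ≤ N) : S x N t (p + 2) = S x N t (p + 1) + x ^ (p + 1) * S x N t p := by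
  have h : ∑ k ∈ range (2 * N + 1), (psi x t p ((k : ℤ) - N) - psi x t p ((k : ℤ) - N + 1)) = 0 := by
    have h1 := Finset.sum_range_sub' (fun k : ℕ => psi x t p ((k : ℤ) - N)) (2 * N + 1)
    have h2 : psi x t p (((0 : ℕ) : ℤ) - N) = 0 := by
      unfold psi
      split_ifs with h
      · rw [G_big x p _ (by push_cast; omega)]; simp
      · rfl
    have h3 : psi x t p (((2 * N + 1 : ℕ) : ℤ) - N) = 0 := by
      unfold psi
      split_ifs with h
      · rw [G_neg x p _ (by push_cast; omega)]; simp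
      · rfl
    rw [h2, h3, sub_zero] at h1
    rw [← h1]
    apply Finset.sum_congr rfl
    intro k _
    congr 2
    push_cast; ring
  unfold S
  rw [Finset.mul_sum, ← Finset.sum_add_distrib]
  have h4 : ∑ k ∈ range (2 * N + 1), tau x t (p + 2) ((k : ℤ) - N) =
      ∑ k ∈ range (2 * N + 1), (tau x t (p + 1) ((k : ℤ) - N) + x ^ (p + 1) * tau x t p ((k : ℤ) - N))
        + ∑ k ∈ range (2 * N + 1), (psi x t p ((k : ℤ) - N) - psi x t p ((k : ℤ) - N + 1)) := by
    rw [← Finset.sum_add_distrib]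
    apply Finset.sum_congr rfl
    intro k _
    exact tau_rec hx t p _
  rw [h4, h, add_zero]

/-- evaluation at `n = 0, 1` -/
lemma S_base (x : ℂ) (N : ℕ) (t : ℤ) (ht : t = 0 ∨ t = 1) (n : ℕ) (hn : n ≤ 1) :
    S x N t n = G x n t := by
  unfold S
  rw [Finset.sum_eq_single N]
  · unfold tau
    have e1 : ((N : ℤ) - N) = 0 := by ring
    rw [e1]
    have e2 : (((n : ℤ) - 5 * 0) / 2 + t) = t := by omega
    rw [e2]
    simp [ex]
  · intro k _ hk
    unfold tau
    rcases lt_or_gt_of_ne hk with h | h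
    · rw [G_big x n _ (by omega)]; simp
    · rw [G_neg x n _ (by omega)]; simp
  · intro h
    exact absurd (Finset.mem_range.2 (by omega)) h

section Root

variable {x : ℂ} {m : ℕ}

lemma G_root (hx : IsPrimitiveRoot x m) (hm : 2 ≤ m) : ∀ k : ℕ, 1 ≤ k → k < m →
    G x m (k : ℤ) = 0 := by
  have hx0 : x ≠ 0 := hx.ne_zero (by omega)
  have key : ∀ i : ℤ, (1 - x ^ i) * G x m i = (1 - x ^ ((m : ℤ) + 1 - i)) * G x m (i - 1) := by
    intro i
    have h1 := G_two hx0 m i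
    rw [G_succ] at h1
    linear_combination -h1
  intro k hk
  induction k, hk using Nat.le_induction with
  | base =>
    intro h1
    have h := key 1
    have e : x ^ ((m : ℤ) + 1 - 1) = 1 := by
      rw [add_sub_cancel_right, zpow_natCast]; exact hx.pow_eq_one
    rw [e, sub_self, zero_mul, zpow_one] at h
    rcases mul_eq_zero.1 h with h2 | h2
    · exfalso
      have : x = 1 := by linear_combination -h2
      exact hx.ne_one (by omega) this
    · exact_mod_cast h2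
  | succ k hk ih =>
    intro h1
    have h := key ((k + 1 : ℕ) : ℤ)
    have e : (((k + 1 : ℕ) : ℤ) - 1) = k := by push_cast; ring
    rw [e, ih (by omega), mul_zero] at h
    rcases mul_eq_zero.1 h with h2 | h2
    · exfalso
      have h3 : x ^ (k + 1) = 1 := by
        rw [zpow_natCast] at h2
        linear_combination -h2
      have := hx.dvd_of_pow_eq_one _ h3
      exact absurd (Nat.le_of_dvd (by omega) this) (by omega)
    · exact h2

lemma G_rootZ (hx : IsPrimitiveRoot x m) (hm : 2 ≤ m) (i : ℤ) (h0 : i ≠ 0) (h1 : i ≠ m) :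
    G x m i = 0 := by
  rcases lt_or_gt_of_ne h0 with h | h
  · exact G_neg x m i h
  · rcases lt_or_gt_of_ne h1 with h' | h'
    · obtain ⟨k, rfl⟩ := Int.eq_ofNat_of_zero_le h.le
      exact G_root hx hm k (by omega) (by omega)
    · exact G_big x m i h'

lemma G_rootS (hx : IsPrimitiveRoot x m) (hm : 2 ≤ m) (i : ℤ) (h0 : i ≠ 0) (h1 : i ≠ 1)
    (h2 : i ≠ m) (h3 : i ≠ m + 1) : G x (m + 1) i = 0 := by
  rw [G_succ, G_rootZ hx hm _ (by omega) (by omega), G_rootZ hx hm _ h0 h2]; simp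

/-- the values of the sums at `n = m` and `n = m + 1` -/
lemma S_eval (m' N : ℕ) (hm' : 1 ≤ m') (hN : m' ≤ N) (t : ℤ) (ht : t = 0 ∨ t = 1) (n : ℕ)
    (hn : n = 5 * m' ∨ n = 5 * m' + 1) (hx : IsPrimitiveRoot x (5 * m')) :
    S x N t n = (-1) ^ (m' : ℤ) * x ^ ex t m' * G x n t +
      (-1) ^ (-(m' : ℤ)) * x ^ ex t (-m') * G x n (5 * m' + t) := by
  unfold S
  have hsub : ({N + m', N - m'} : Finset ℕ) ⊆ range (2 * N + 1) := by
    intro k hk
    simp only [mem_insert, mem_singleton] at hk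
    rw [mem_range]
    omega
  rw [← Finset.sum_subset hsub]
  · rw [Finset.sum_pair (by omega)]
    have e1 : (((N + m' : ℕ) : ℤ) - N) = m' := by push_cast; ring
    have e2 : (((N - m' : ℕ) : ℤ) - N) = -m' := by omega
    rw [e1, e2]
    unfold tau
    have e3 : (((n : ℤ) - 5 * m') / 2 + t) = t := by omega
    have e4 : (((n : ℤ) - 5 * (-m')) / 2 + t) = 5 * m' + t := by omega
    rw [e3, e4]
  · intro k _ hk
    simp only [mem_insert, mem_singleton, not_or] at hk
    obtain ⟨d, hd⟩ : ∃ d : ℤ, d = m' - ((k : ℤ) - N) := ⟨_, rfl⟩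
    have hd0 : d ≠ 0 := by omega
    have hd1 : d ≠ 2 * m' := by omega
    have hj : (k : ℤ) - N = m' - d := by omega
    unfold tau
    rw [hj]
    rcases hn with hn | hn
    · subst hn
      rw [G_rootZ hx (by omega) _ (by push_cast; omega) (by push_cast; omega)]; simp
    · subst hn
      rw [G_rootS hx (by omega) _ (by push_cast; omega) (by push_cast; omega)
        (by push_cast; omega) (by push_cast; omega)]; simp

/-- the sign and the power of `x` in the two surviving terms -/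
lemma sign_pow (m' : ℕ) (hm' : 1 ≤ m') (hx : IsPrimitiveRoot x (5 * m')) :
    (-1) ^ (m' : ℤ) * x ^ (5 * ((m' : ℤ) * (m' - 1) / 2)) = -1 := by
  rcases Nat.even_or_odd' m' with ⟨c, hc | hc⟩
  · have h1 : 5 * ((m' : ℤ) * (m' - 1) / 2) = ((5 * c * (2 * c - 1) : ℕ) : ℤ) := by
      have hc1 : 1 ≤ c := by omega
      have e : ((m' : ℤ) * (m' - 1)) = 2 * (c * (2 * c - 1)) := by
        rw [hc]; push_cast; ring
      rw [e, Int.mul_ediv_cancel_left _ (by norm_num)]
      push_cast [Nat.cast_sub (show 1 ≤ 2 * c by omega)]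
      ring
    rw [h1, zpow_natCast, zpow_natCast, pow_mul]
    have h2 : x ^ (5 * c) = -1 := by
      have h3 : (x ^ (5 * c)) ^ 2 = 1 := by
        rw [← pow_mul]
        have : 5 * c * 2 = 5 * m' := by omega
        rw [this]; exact hx.pow_eq_one
      rw [pow_two] at h3
      rcases mul_self_eq_one_iff.1 h3 with h4 | h4
      · exfalso
        have := hx.dvd_of_pow_eq_one _ h4
        exact absurd (Nat.le_of_dvd (by omega) this) (by omega)
      · exact h4
    rw [h2, hc, Even.neg_one_pow ⟨c, by ring⟩]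
    have h5 : Odd (2 * c - 1) := ⟨c - 1, by omega⟩
    rw [h5.neg_one_pow]; norm_num
  · have h1 : 5 * ((m' : ℤ) * (m' - 1) / 2) = ((5 * m' * c : ℕ) : ℤ) := by
      have e : ((m' : ℤ) * (m' - 1)) = 2 * (m' * c) := by
        rw [hc]; push_cast; ring
      rw [e, Int.mul_ediv_cancel_left _ (by norm_num)]
      push_cast; ring
    rw [h1, zpow_natCast, zpow_natCast, pow_mul, hx.pow_eq_one, one_pow, mul_one]
    exact (show Odd m' from ⟨c, hc⟩).neg_one_pow

end Root

section Mono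

variable {x : ℂ} {m' : ℕ}

lemma half_two (m' : ℕ) : 2 * ((m' : ℤ) * (m' - 1) / 2) = (m' : ℤ) * (m' - 1) := by
  have h : Even ((m' : ℤ) * (m' - 1)) := by
    rcases Int.even_or_odd (m' : ℤ) with h | h
    · exact h.mul_right _
    · exact (h.sub_odd odd_one).mul_left _
  have := Int.ediv_mul_cancel h.two_dvd
  linarith

lemma w_pos (hm' : 1 ≤ m') (hx : IsPrimitiveRoot x (5 * m')) (t : ℤ) :
    (-1) ^ (m' : ℤ) * x ^ ex t m' = -(x ^ m') ^ (3 - 2 * t) := by
  have hx0 : x ≠ 0 := hx.ne_zero (by omega)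
  have h1 := sign_pow m' hm' hx
  have h2 : ex t m' = 5 * ((m' : ℤ) * (m' - 1) / 2) + m' * (3 - 2 * t) := by
    unfold ex; ring
  have h3 : x ^ ((m' : ℤ) * (3 - 2 * t)) = (x ^ m') ^ (3 - 2 * t) := by
    rw [zpow_mul, zpow_natCast]
  rw [h2, zpow_add₀ hx0, h3]
  linear_combination (x ^ m') ^ (3 - 2 * t) * h1

lemma w_neg (hm' : 1 ≤ m') (hx : IsPrimitiveRoot x (5 * m')) (t : ℤ) :
    (-1) ^ (-(m' : ℤ)) * x ^ ex t (-m') = -(x ^ m') ^ (2 + 2 * t) := by
  have hx0 : x ≠ 0 := hx.ne_zero (by omega)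
  have h1 := sign_pow m' hm' hx
  have h2 : ex t (-m') = 5 * ((m' : ℤ) * (m' - 1) / 2) + m' * (2 + 2 * t) := by
    have h3 := ex_two t (-m')
    have h4 := half_two m'
    have : 2 * ex t (-m') = 2 * (5 * ((m' : ℤ) * (m' - 1) / 2) + m' * (2 + 2 * t)) := by
      rw [h3]; linear_combination -5 * h4
    omega
  have h5 : (-1 : ℂ) ^ (-(m' : ℤ)) = (-1) ^ (m' : ℤ) := by
    rw [zpow_neg, ← inv_zpow]; norm_num
  have h6 : x ^ ((m' : ℤ) * (2 + 2 * t)) = (x ^ m') ^ (2 + 2 * t) := by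
    rw [zpow_mul, zpow_natCast]
  rw [h5, h2, zpow_add₀ hx0, h6]
  linear_combination (x ^ m') ^ (2 + 2 * t) * h1

/-- **The monodromy of the recursion** `u (n + 2) = u (n + 1) + x ^ n u n`. -/
lemma mono (hm' : 1 ≤ m') (hx : IsPrimitiveRoot x (5 * m')) (u : ℕ → ℂ)
    (hu : ∀ n, u (n + 2) = u (n + 1) + x ^ n * u n) :
    u (5 * m') = -(x ^ m' + (x ^ m') ^ 4) * u 0 ∧
      u (5 * m' + 1) = -((x ^ m') ^ 2 + (x ^ m') ^ 3) * u 1 := by
  have hx0 : x ≠ 0 := hx.ne_zero (by omega)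
  obtain ⟨N, hN⟩ : ∃ N : ℕ, N = 5 * m' + 2 := ⟨_, rfl⟩
  have hc : ∀ n : ℕ, n ≤ 5 * m' → u (n + 1) = u 0 * S x N 1 n + u 1 * S x N 0 n := by
    intro n
    induction n using Nat.twoStepInduction with
    | zero =>
      intro _
      rw [S_base x N 1 (Or.inr rfl) 0 (by omega), S_base x N 0 (Or.inl rfl) 0 (by omega)]
      simp [G]
    | one =>
      intro _
      rw [S_base x N 1 (Or.inr rfl) 1 (by omega), S_base x N 0 (Or.inl rfl) 1 (by omega), hu 0]
      simp [G, add_comm]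
    | more n ih1 ih2 =>
      intro hn
      rw [S_rec hx0 N 1 (by norm_num) (by norm_num) n (by omega),
        S_rec hx0 N 0 (by norm_num) (by norm_num) n (by omega), hu (n + 1), ih1 (by omega)]
      have := ih2 (by omega)
      rw [show n + 1 + 1 = n + 2 from rfl] at this
      rw [show n + 1 + 1 = n + 2 from rfl, this]
      ring
  have hG1 : G x (5 * m') 1 = 0 := G_rootZ hx (by omega) _ (by omega) (by push_cast; omega)
  have hGm : G x (5 * m') (5 * m' + 0) = 1 := by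
    have := G_self x (5 * m')
    push_cast at this
    rw [add_zero]; exact this
  have hGm1 : G x (5 * m') (5 * m' + 1) = 0 := G_big x _ _ (by push_cast; omega)
  have hxm : x ^ (5 * m') = 1 := hx.pow_eq_one
  have hH0 : G x (5 * m' + 1) (5 * m' + 0) = 1 := by
    rw [G_succ, G_rootZ hx (by omega) _ (by omega) (by push_cast; omega), hGm, add_zero, zero_add,
      mul_one]
    exact_mod_cast hxm
  have hH1 : G x (5 * m' + 1) 1 = 1 := by
    rw [G_succ, hG1, sub_self, G_zero]; simp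
  have hH2 : G x (5 * m' + 1) (5 * m' + 1) = 1 := by
    rw [G_succ, hGm1]
    have : (5 * (m' : ℤ) + 1 - 1) = 5 * m' + 0 := by ring
    rw [this, hGm]; simp
  have e1 : S x N 0 (5 * m') = -((x ^ m') ^ 2 + (x ^ m') ^ 3) := by
    rw [S_eval m' N hm' (by omega) 0 (Or.inl rfl) _ (Or.inl rfl) hx, w_pos hm' hx, w_neg hm' hx,
      G_zero, hGm]
    rw [show ((3 : ℤ) - 2 * 0) = ((3 : ℕ) : ℤ) by norm_num,
      show ((2 : ℤ) + 2 * 0) = ((2 : ℕ) : ℤ) by norm_num, zpow_natCast, zpow_natCast]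
    ring
  have e2 : S x N 0 (5 * m' + 1) = -((x ^ m') ^ 2 + (x ^ m') ^ 3) := by
    rw [S_eval m' N hm' (by omega) 0 (Or.inl rfl) _ (Or.inr rfl) hx, w_pos hm' hx, w_neg hm' hx,
      G_zero, hH0]
    rw [show ((3 : ℤ) - 2 * 0) = ((3 : ℕ) : ℤ) by norm_num,
      show ((2 : ℤ) + 2 * 0) = ((2 : ℕ) : ℤ) by norm_num, zpow_natCast, zpow_natCast]
    ring
  have e3 : S x N 1 (5 * m') = 0 := by
    rw [S_eval m' N hm' (by omega) 1 (Or.inr rfl) _ (Or.inl rfl) hx, hG1, hGm1]; simp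
  have e4 : S x N 1 (5 * m' + 1) = -(x ^ m' + (x ^ m') ^ 4) := by
    rw [S_eval m' N hm' (by omega) 1 (Or.inr rfl) _ (Or.inr rfl) hx, w_pos hm' hx, w_neg hm' hx,
      hH1, hH2]
    rw [show ((3 : ℤ) - 2 * 1) = ((1 : ℕ) : ℤ) by norm_num,
      show ((2 : ℤ) + 2 * 1) = ((4 : ℕ) : ℤ) by norm_num, zpow_natCast, zpow_natCast]
    ring
  obtain ⟨q, hq⟩ : ∃ q, 5 * m' = q + 1 := ⟨5 * m' - 1, by omega⟩
  have r0 := S_rec hx0 N 0 (by norm_num) (by norm_num) q (by omega)
  have r1 := S_rec hx0 N 1 (by norm_num) (by norm_num) q (by omega)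
  rw [show q + 2 = 5 * m' + 1 by omega, show q + 1 = 5 * m' from hq.symm, hxm] at r0 r1
  rw [e1, e2] at r0
  rw [e3, e4] at r1
  constructor
  · have := hc q (by omega)
    rw [show q + 1 = 5 * m' from hq.symm] at this
    rw [this]
    linear_combination (-(u 0)) * r1 - u 1 * r0
  · rw [hc (5 * m') le_rfl, e1, e3]; ring

end Mono

open Real in
/-- **Main result** (Q1, with the eigenvalues made explicit). -/
theorem result (k m : ℕ) (j l : ℤ) (hk : 1 ≤ k) (hm : 3 ≤ m) (hjk : IsCoprime j (k : ℤ))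
    (hlm : IsCoprime l (m : ℤ)) (h5 : 5 ∣ m) (hkm : k ∣ m) (a x : ℂ)
    (ha : a = Complex.exp (2 * π * Complex.I * j / k))
    (hx : x = Complex.exp (2 * π * Complex.I * l / m))
    (P Q : ℤ → ℂ) (hP2 : P (-2) = 0) (hP1 : P (-1) = 1) (hP0 : P 0 = 1)
    (hQ1 : Q (-1) = 1) (hQ0 : Q 0 = 1 + a)
    (hP : ∀ n : ℤ, 1 ≤ n → P n = P (n - 1) + a * x ^ n * P (n - 2))
    (hQ : ∀ n : ℤ, 1 ≤ n → Q n = Q (n - 1) + a * x ^ n * Q (n - 2))
    (A : Matrix (Fin 2) (Fin 2) ℂ)
    (hA : A = !![a * x ^ ((m : ℤ) - 1) * P (m - 3), P (m - 2);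
                 a * x ^ ((m : ℤ) - 1) * Q (m - 3), Q (m - 2)])
    (l' s₀ : ℤ) (hl' : l * l' ≡ 1 [ZMOD m]) (hs₀ : s₀ ≡ -((m / k : ℕ) : ℤ) * j * l' [ZMOD m]) :
    ∃ lam mu : ℂ,
      ((lam = (1 + √5) / 2 ∧ mu = (1 - √5) / 2) ∨ (lam = (1 - √5) / 2 ∧ mu = (1 + √5) / 2)) ∧
      lam = ((1 + 2 * Real.cos (2 * π * l / 5) : ℝ) : ℂ) ∧
      ∀ r : ℤ, 0 ≤ r →
        (r ≡ s₀ - 1 [ZMOD m] → ![P r, Q r] ≠ 0 ∧ A.mulVec ![P r, Q r] = lam • ![P r, Q r]) ∧
        (r ≡ s₀ - 2 [ZMOD m] → ![P r, Q r] ≠ 0 ∧ A.mulVec ![P r, Q r] = mu • ![P r, Q r]) := by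
  obtain ⟨m', rfl⟩ := h5
  have hm' : 1 ≤ m' := by omega
  have hm0 : ((5 * m' : ℕ) : ℂ) ≠ 0 := by
    have : (5 * m' : ℕ) ≠ 0 := by omega
    exact_mod_cast this
  -- `x` is a primitive root
  have hprim : IsPrimitiveRoot x (5 * m') := by
    have h1 := Complex.isPrimitiveRoot_exp (5 * m') (by omega)
    have h2 : x = Complex.exp (2 * π * Complex.I / (5 * m' : ℕ)) ^ l := by
      rw [hx, ← Complex.exp_int_mul]; congr 1; ring
    rw [h2]
    exact h1.zpow_of_gcd_eq_one l (by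
      rw [Int.isCoprime_iff_gcd_eq_one] at hlm; exact hlm)
  have hx0 : x ≠ 0 := hprim.ne_zero (by omega)
  have hxm : x ^ (5 * m') = 1 := hprim.pow_eq_one
  have hxmz : x ^ ((5 * m' : ℕ) : ℤ) = 1 := by rw [zpow_natCast]; exact hxm
  -- `a = x ^ (-s₀)`
  have hmod : ∀ u v : ℤ, u ≡ v [ZMOD (5 * m' : ℕ)] → x ^ u = x ^ v := by
    intro u v huv
    obtain ⟨c, hc⟩ := huv.dvd
    have : v = u + ((5 * m' : ℕ) : ℤ) * c := by linarith
    rw [this, zpow_add₀ hx0, zpow_mul, hxmz, one_zpow, mul_one]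
  have hax : a = x ^ (-s₀) := by
    obtain ⟨q, hq⟩ := hkm
    have hk0 : (k : ℂ) ≠ 0 := by
      have : k ≠ 0 := by omega
      exact_mod_cast this
    have hdiv : (5 * m') / k = q := by rw [hq]; exact Nat.mul_div_cancel_left q (by omega)
    rw [hdiv] at hs₀
    have h1 : x ^ (-s₀) = x ^ (l' * ((q : ℤ) * j)) := by
      apply hmod
      have := hs₀.neg
      refine this.trans ?_
      have e : -(-(q : ℤ) * j * l') = l' * (q * j) := by ring
      rw [e]
    have h2 : x ^ l' = Complex.exp (2 * π * Complex.I / (5 * m' : ℕ)) := by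
      obtain ⟨c, hc⟩ := hl'.symm.dvd
      have hc' : l * l' = 1 + ((5 * m' : ℕ) : ℤ) * c := by linarith
      rw [hx, ← Complex.exp_int_mul]
      have e : (l' : ℂ) * (2 * π * Complex.I * l / (5 * m' : ℕ)) =
          2 * π * Complex.I / (5 * m' : ℕ) + c * (2 * π * Complex.I) := by
        have hc2 : (l : ℂ) * l' = 1 + ((5 * m' : ℕ) : ℂ) * c := by exact_mod_cast hc'
        field_simp
        linear_combination hc2
      rw [e, Complex.exp_add, Complex.exp_int_mul_two_pi_mul_I, mul_one]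
    rw [h1, zpow_mul, h2, ← Complex.exp_int_mul, ha]
    congr 1
    have e2 : ((5 * m' : ℕ) : ℂ) = k * q := by exact_mod_cast hq
    have hq0 : (q : ℂ) ≠ 0 := by
      intro h
      rw [e2, h, mul_zero] at hm0
      exact hm0 rfl
    rw [e2]
    push_cast
    field_simp
  have ha0 : a ≠ 0 := by rw [hax]; exact zpow_ne_zero _ hx0
  obtain ⟨y, hy⟩ : ∃ y, y = x ^ m' := ⟨_, rfl⟩
  have hy5 : y ^ 5 = 1 := by rw [hy, ← pow_mul, mul_comm]; exact hxm
  have hyprim : IsPrimitiveRoot y 5 := by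
    rw [hy]; exact hprim.pow (by omega) (by ring)
  have hysum : 1 + y + y ^ 2 + y ^ 3 + y ^ 4 = 0 := by
    have h1 : (y - 1) * (1 + y + y ^ 2 + y ^ 3 + y ^ 4) = 0 := by linear_combination hy5
    rcases mul_eq_zero.1 h1 with h | h
    · exact absurd (by linear_combination h) (hyprim.ne_one (by norm_num))
    · exact h
  -- eigenvalues
  obtain ⟨lam, hlam⟩ : ∃ lam, lam = -(y ^ 2 + y ^ 3) := ⟨_, rfl⟩
  obtain ⟨mu, hmu⟩ : ∃ mu, mu = -(y + y ^ 4) := ⟨_, rfl⟩
  have hsum : lam + mu = 1 := by rw [hlam, hmu]; linear_combination -hysum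
  have hquad : lam ^ 2 = lam + 1 := by
    rw [hlam]
    linear_combination (y + 2) * hy5 + hysum
  have hs5 : ((√5 : ℝ) : ℂ) ^ 2 = 5 := by
    have : (√5 : ℝ) ^ 2 = 5 := Real.sq_sqrt (by norm_num)
    exact_mod_cast this
  have hmat : ∀ (R : ℤ → ℂ), (∀ n : ℤ, 1 ≤ n → R n = R (n - 1) + a * x ^ n * R (n - 2)) →
      ∀ r : ℤ, 0 ≤ r →
        (r ≡ s₀ - 1 [ZMOD (5 * m' : ℕ)] → R (r + (5 * m' : ℕ)) = lam * R r) ∧
        (r ≡ s₀ - 2 [ZMOD (5 * m' : ℕ)] → R (r + (5 * m' : ℕ)) = mu * R r) := by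
    intro R hR r hr
    constructor
    · intro hrs
      have h := (mono hm' hprim (fun n : ℕ => R (r - 1 + n)) (by
        intro n
        have h1 := hR (r + 1 + n) (by omega)
        have e1 : r - 1 + ((n + 2 : ℕ) : ℤ) = r + 1 + n := by push_cast; ring
        have e2 : r - 1 + ((n + 1 : ℕ) : ℤ) = r + 1 + n - 1 := by push_cast; ring
        have e3 : r - 1 + (n : ℤ) = r + 1 + n - 2 := by ring
        have e4 : a * x ^ (r + 1 + n) = x ^ n := by
          rw [hax, ← zpow_add₀ hx0, ← zpow_natCast x n]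
          apply hmod
          have : -s₀ + (r + 1 + n) ≡ -s₀ + (s₀ - 1 + 1 + n) [ZMOD (5 * m' : ℕ)] :=
            ((hrs.add_right 1).add_right n).add_left _
          refine this.trans ?_
          have e : -s₀ + (s₀ - 1 + 1 + n) = (n : ℤ) := by ring
          rw [e]
        rw [e1, e2, e3, h1, e4])).2
      have e5 : r - 1 + ((5 * m' + 1 : ℕ) : ℤ) = r + (5 * m' : ℕ) := by push_cast; ring
      have e6 : r - 1 + ((1 : ℕ) : ℤ) = r := by push_cast; ring
      rw [e5, e6] at h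
      rw [h, hlam, hy]
    · intro hrs
      have h := (mono hm' hprim (fun n : ℕ => R (r + n)) (by
        intro n
        have h1 := hR (r + 2 + n) (by omega)
        have e1 : r + ((n + 2 : ℕ) : ℤ) = r + 2 + n := by push_cast; ring
        have e2 : r + ((n + 1 : ℕ) : ℤ) = r + 2 + n - 1 := by push_cast; ring
        have e3 : r + (n : ℤ) = r + 2 + n - 2 := by ring
        have e4 : a * x ^ (r + 2 + n) = x ^ n := by
          rw [hax, ← zpow_add₀ hx0, ← zpow_natCast x n]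
          apply hmod
          have : -s₀ + (r + 2 + n) ≡ -s₀ + (s₀ - 2 + 2 + n) [ZMOD (5 * m' : ℕ)] :=
            ((hrs.add_right 2).add_right n).add_left _
          refine this.trans ?_
          have e : -s₀ + (s₀ - 2 + 2 + n) = (n : ℤ) := by ring
          rw [e]
        rw [e1, e2, e3, h1, e4])).1
      have e6 : r + ((0 : ℕ) : ℤ) = r := by push_cast; ring
      rw [e6] at h
      rw [h, hmu, hy]
  -- `V_(r+m) = A V_r`
  have hshift : ∀ (R : ℤ → ℂ), (∀ n : ℤ, 1 ≤ n → R n = R (n - 1) + a * x ^ n * R (n - 2)) →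
      ∀ q : ℕ, R ((q : ℤ) - 1 + (5 * m' : ℕ)) =
        a * x ^ (((5 * m' : ℕ) : ℤ) - 1) * R ((5 * m' : ℕ) - 3) * P ((q : ℤ) - 1) +
          R ((5 * m' : ℕ) - 2) * Q ((q : ℤ) - 1) := by
    intro R hR q
    have hb := hR (((5 * m' : ℕ) : ℤ) - 1) (by push_cast; omega)
    have b1 : (((5 * m' : ℕ) : ℤ) - 1 - 1) = (5 * m' : ℕ) - 2 := by ring
    have b2 : (((5 * m' : ℕ) : ℤ) - 1 - 2) = (5 * m' : ℕ) - 3 := by ring
    rw [b1, b2] at hb
    induction q using Nat.twoStepInduction with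
    | zero =>
      have e : (((0 : ℕ) : ℤ) - 1) = -1 := by norm_num
      have e' : (((0 : ℕ) : ℤ) - 1 + (5 * m' : ℕ)) = ((5 * m' : ℕ) : ℤ) - 1 := by push_cast; ring
      rw [e', e, hP1, hQ1, hb]; ring
    | one =>
      have e : (((1 : ℕ) : ℤ) - 1) = 0 := by norm_num
      have e' : (((1 : ℕ) : ℤ) - 1 + (5 * m' : ℕ)) = ((5 * m' : ℕ) : ℤ) := by push_cast; ring
      have hc := hR ((5 * m' : ℕ) : ℤ) (by push_cast; omega)
      rw [hxmz, hb] at hc
      rw [e', e, hP0, hQ0, hc]; ring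
    | more q ih1 ih2 =>
      have hc := hR ((q : ℤ) + 1 + (5 * m' : ℕ)) (by push_cast; omega)
      have hp := hP ((q : ℤ) + 1) (by omega)
      have hq := hQ ((q : ℤ) + 1) (by omega)
      have c1 : (((q + 2 : ℕ) : ℤ) - 1 + (5 * m' : ℕ)) = (q : ℤ) + 1 + (5 * m' : ℕ) := by
        push_cast; ring
      have c2 : (((q + 2 : ℕ) : ℤ) - 1) = (q : ℤ) + 1 := by push_cast; ring
      have c3 : ((q : ℤ) + 1 + (5 * m' : ℕ) - 1) = ((q + 1 : ℕ) : ℤ) - 1 + (5 * m' : ℕ) := by
        push_cast; ring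
      have c4 : ((q : ℤ) + 1 + (5 * m' : ℕ) - 2) = (q : ℤ) - 1 + (5 * m' : ℕ) := by ring
      have c5 : ((q : ℤ) + 1 - 1) = ((q + 1 : ℕ) : ℤ) - 1 := by push_cast; ring
      have c6 : ((q : ℤ) + 1 - 2) = (q : ℤ) - 1 := by ring
      have c7 : x ^ ((q : ℤ) + 1 + (5 * m' : ℕ)) = x ^ ((q : ℤ) + 1) := by
        rw [zpow_add₀ hx0 _ (((5 * m' : ℕ) : ℤ)), hxmz, mul_one]
      rw [c5, c6] at hp hq
      rw [c3, c4, c7, ih1, ih2] at hc
      rw [c1, hc, c2, hp, hq]
      ring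
  -- nonvanishing
  have hdet : ∀ q : ℕ, P q * Q ((q : ℤ) - 1) - P ((q : ℤ) - 1) * Q q ≠ 0 := by
    intro q
    induction q with
    | zero =>
      have e : (((0 : ℕ) : ℤ) - 1) = -1 := by norm_num
      have e' : ((0 : ℕ) : ℤ) = 0 := by norm_num
      rw [e, e', hP0, hQ1, hP1, hQ0]
      intro h
      exact ha0 (by linear_combination -h)
    | succ q ih =>
      have hp := hP ((q + 1 : ℕ) : ℤ) (by push_cast; omega)
      have hq := hQ ((q + 1 : ℕ) : ℤ) (by push_cast; omega)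
      have c1 : (((q + 1 : ℕ) : ℤ) - 1) = q := by push_cast; ring
      have c2 : (((q + 1 : ℕ) : ℤ) - 2) = q - 1 := by push_cast; ring
      rw [c1, c2] at hp hq
      rw [c1, hp, hq]
      intro h
      have h2 : a * x ^ ((q + 1 : ℕ) : ℤ) * (P q * Q ((q : ℤ) - 1) - P ((q : ℤ) - 1) * Q q) = 0 := by
        linear_combination -h
      rcases mul_eq_zero.1 h2 with h3 | h3
      · exact mul_ne_zero ha0 (zpow_ne_zero _ hx0) h3
      · exact ih h3
  have hV : ∀ r : ℤ, 0 ≤ r → ![P r, Q r] ≠ 0 := by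
    intro r hr h
    obtain ⟨q, rfl⟩ := Int.eq_ofNat_of_zero_le hr
    have h0 : P q = 0 := by simpa using congrFun h 0
    have h1 : Q q = 0 := by simpa using congrFun h 1
    apply hdet q
    rw [h0, h1]; ring
  have hAV : ∀ r : ℤ, 0 ≤ r →
      A.mulVec ![P r, Q r] = ![P (r + (5 * m' : ℕ)), Q (r + (5 * m' : ℕ))] := by
    intro r hr
    obtain ⟨q, rfl⟩ := Int.eq_ofNat_of_zero_le hr
    have h1 := hshift P hP (q + 1)
    have h2 := hshift Q hQ (q + 1)
    have c : (((q + 1 : ℕ) : ℤ) - 1) = q := by push_cast; ring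
    rw [c] at h1 h2
    rw [hA, h1, h2]
    funext i
    fin_cases i <;> simp [Matrix.mulVec, dotProduct, Fin.sum_univ_two]
  refine ⟨lam, mu, ?_, ?_, ?_⟩
  · have h : (lam - (1 + √5) / 2) * (lam - (1 - √5) / 2) = 0 := by
      linear_combination hquad - (1 / 4 : ℂ) * hs5
    rcases mul_eq_zero.1 h with h | h
    · left
      have h1 : lam = (1 + √5) / 2 := by linear_combination h
      exact ⟨h1, by linear_combination hsum - h1⟩
    · right
      have h1 : lam = (1 - √5) / 2 := by linear_combination h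
      exact ⟨h1, by linear_combination hsum - h1⟩
  · have hyexp : y = Complex.exp (((2 * π * l / 5 : ℝ) : ℂ) * Complex.I) := by
      rw [hy, hx, ← Complex.exp_nat_mul]
      congr 1
      have : (m' : ℂ) ≠ 0 := by
        have : m' ≠ 0 := by omega
        exact_mod_cast this
      push_cast
      field_simp
    have hyinv : y ^ 4 = Complex.exp (-(((2 * π * l / 5 : ℝ) : ℂ) * Complex.I)) := by
      rw [Complex.exp_neg, ← hyexp]
      exact eq_inv_of_mul_eq_one_left (by linear_combination hy5)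
    have h1 : lam = 1 + (y + y ^ 4) := by rw [hlam]; linear_combination -hysum
    rw [h1, hyinv]
    push_cast
    rw [Complex.two_cos, hyexp]
    push_cast
    ring_nf
  · intro r hr
    obtain ⟨p1, p2⟩ := hmat P hP r hr
    obtain ⟨q1, q2⟩ := hmat Q hQ r hr
    constructor
    · intro h
      refine ⟨hV r hr, ?_⟩
      rw [hAV r hr, p1 h, q1 h]
      funext i
      fin_cases i <;> simp
    · intro h
      refine ⟨hV r hr, ?_⟩
      rw [hAV r hr, p2 h, q2 h]
      funext i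
      fin_cases i <;> simp

end Pool.Agent.Results.MP_b3b2bb_nt.Eigenvectors
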